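import Mathlib

set_option autoImplicit false

namespace Pool.Agent.Results.MP_c605fa_an.MaxArcLength

open Polynomial Finset

/-- Arc-length of the graph of the real polynomial `P` over `[-1,1]`. -/
noncomputable def arcLength (P : ℝ[X]) : ℝ :=
  ∫ t in (-1 : ℝ)..1, Real.sqrt (1 + (P.derivative.eval t) ^ 2)

/-! ### The function `phi y = sqrt (1 + y^2)` -/

noncomputable def phi (y : ℝ) : ℝ := Real.sqrt (1 + y ^ 2)

lemma phi_pos (y : ℝ) : 0 < phi y := by unfold phi; positivity

lemma phi_sq (y : ℝ) : phi y ^ 2 = 1 + y ^ 2 := Real.sq_sqrt (by positivity)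

lemma phi_abs (y : ℝ) : phi |y| = phi y := by unfold phi; rw [sq_abs]

lemma phi_mono {x y : ℝ} (hx : 0 ≤ x) (h : x ≤ y) : phi x ≤ phi y := by
  unfold phi; apply Real.sqrt_le_sqrt; nlinarith

lemma phi_strict {x y : ℝ} (hx : 0 ≤ x) (h : x < y) : phi x < phi y := by
  unfold phi; apply Real.sqrt_lt_sqrt (by positivity); nlinarith

lemma phi_mul (x y : ℝ) : 1 + x * y ≤ phi x * phi y := by
  have h1 : (1 + x * y) ^ 2 ≤ (phi x * phi y) ^ 2 := by
    rw [mul_pow, phi_sq, phi_sq]; nlinarith [sq_nonneg (x - y)]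
  exact le_trans (le_abs_self _) (abs_le_of_sq_le_sq h1 (by have := phi_pos x; have := phi_pos y; positivity))

lemma phi_convex (l x y : ℝ) (h0 : 0 ≤ l) (h1 : l ≤ 1) :
    phi (l * x + (1 - l) * y) ≤ l * phi x + (1 - l) * phi y := by
  have hx := phi_pos x
  have hy := phi_pos y
  have hnn : 0 ≤ l * phi x + (1 - l) * phi y := by
    have : 0 ≤ 1 - l := by linarith
    positivity
  have : phi (l * x + (1 - l) * y) ^ 2 ≤ (l * phi x + (1 - l) * phi y) ^ 2 := by
    rw [phi_sq]
    have h2 := phi_mul x y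
    have h3 := phi_sq x
    have h4 := phi_sq y
    have h5 : 0 ≤ l * (1 - l) := mul_nonneg h0 (by linarith)
    nlinarith [mul_le_mul_of_nonneg_left h2 h5]
  exact le_trans (le_abs_self _) (abs_le_of_sq_le_sq this hnn)

/-- weak majorization inequality -/
lemma phi_major {p q m M : ℝ} (hp : 0 ≤ p) (hq : 0 ≤ q) (hmM : m ≤ M) (hpM : p ≤ M)
    (hqM : q ≤ M) (hs : p + q ≤ M + m) : phi p + phi q ≤ phi M + phi m := by
  wlog hpq : q ≤ p generalizing p q
  · have := this hq hp hqM hpM (by linarith) (by linarith)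
    linarith
  rcases lt_or_ge p m with h | h
  · have h1 := phi_mono hp (h.le.trans hmM)
    have h2 := phi_mono hq (hpq.trans h.le)
    linarith
  · have h1 : phi q ≤ phi (M + m - p) := phi_mono hq (by linarith)
    rcases eq_or_lt_of_le hmM with heq | hlt
    · have : p = M := by linarith
      rw [this] at h1 ⊢
      have e : M + m - M = m := by ring
      rw [e] at h1
      linarith
    · set l := (p - m) / (M - m) with hl
      have hMm : 0 < M - m := by linarith
      have hl0 : 0 ≤ l := div_nonneg (by linarith) hMm.le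
      have hl1 : l ≤ 1 := by rw [hl, div_le_one hMm]; linarith
      have e1 : l * (M - m) = p - m := by rw [hl]; field_simp
      have c1 := phi_convex l M m hl0 hl1
      have c2 := phi_convex (1 - l) M m (by linarith) (by linarith)
      have e2 : l * M + (1 - l) * m = p := by linarith
      have e3 : (1 - l) * M + (1 - (1 - l)) * m = M + m - p := by linarith
      rw [e2] at c1
      rw [e3] at c2
      linarith

/-! ### Products of pairs -/

lemma prod_le_pow' {ι : Type*} (s : Finset ι) (a : ι → ℝ) (u : ℝ)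
    (ha : ∀ i ∈ s, 0 ≤ a i) (hau : ∀ i ∈ s, a i ≤ u) : ∏ i ∈ s, a i ≤ u ^ s.card := by
  rw [← Finset.prod_const]
  exact Finset.prod_le_prod ha hau

lemma prod_pair {ι : Type*} (s : Finset ι) (a b : ι → ℝ) (u v : ℝ) (hv : 0 ≤ v) (hvu : v ≤ u)
    (ha : ∀ i ∈ s, 0 ≤ a i) (hb : ∀ i ∈ s, 0 ≤ b i) (hau : ∀ i ∈ s, a i ≤ u)
    (hbu : ∀ i ∈ s, b i ≤ u) (hab : ∀ i ∈ s, a i + b i ≤ u + v) :
    ∏ i ∈ s, a i + ∏ i ∈ s, b i ≤ u ^ s.card + v ^ s.card := by
  classical
  have hu : 0 ≤ u := hv.trans hvu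
  induction s using Finset.induction_on with
  | empty => simp
  | insert j s hj ih =>
    rw [Finset.prod_insert hj, Finset.prod_insert hj, Finset.card_insert_of_notMem hj]
    have ih' := ih (fun i hi => ha i (mem_insert_of_mem hi)) (fun i hi => hb i (mem_insert_of_mem hi))
      (fun i hi => hau i (mem_insert_of_mem hi)) (fun i hi => hbu i (mem_insert_of_mem hi))
      (fun i hi => hab i (mem_insert_of_mem hi))
    set A := ∏ i ∈ s, a i with hA
    set B := ∏ i ∈ s, b i with hB
    have hA0 : 0 ≤ A := Finset.prod_nonneg fun i hi => ha i (mem_insert_of_mem hi)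
    have hB0 : 0 ≤ B := Finset.prod_nonneg fun i hi => hb i (mem_insert_of_mem hi)
    have hAu : A ≤ u ^ s.card :=
      prod_le_pow' s a u (fun i hi => ha i (mem_insert_of_mem hi))
        (fun i hi => hau i (mem_insert_of_mem hi))
    have hBu : B ≤ u ^ s.card :=
      prod_le_pow' s b u (fun i hi => hb i (mem_insert_of_mem hi))
        (fun i hi => hbu i (mem_insert_of_mem hi))
    have haj := ha j (mem_insert_self j s)
    have hbj := hb j (mem_insert_self j s)
    have hauj := hau j (mem_insert_self j s)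
    have hbuj := hbu j (mem_insert_self j s)
    have habj := hab j (mem_insert_self j s)
    rw [pow_succ, pow_succ]
    rcases le_total B A with h | h
    · nlinarith [mul_nonneg (sub_nonneg.mpr hauj) (sub_nonneg.mpr h),
        mul_nonneg (sub_nonneg.mpr habj) hB0, mul_nonneg (sub_nonneg.mpr hvu) (sub_nonneg.mpr hAu),
        mul_nonneg hv (sub_nonneg.mpr ih')]
    · nlinarith [mul_nonneg (sub_nonneg.mpr hbuj) (sub_nonneg.mpr h),
        mul_nonneg (sub_nonneg.mpr habj) hA0, mul_nonneg (sub_nonneg.mpr hvu) (sub_nonneg.mpr hBu),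
        mul_nonneg hv (sub_nonneg.mpr ih')]

/-! ### The pointwise estimate -/

variable {n : ℕ}

/-- elementary symmetric type sum -/
noncomputable def E (a : Fin n → ℝ) : ℝ := ∑ i, ∏ j ∈ univ.erase i, a j

lemma eval_deriv (x : Fin n → ℝ) (t : ℝ) :
    (∏ i, (X - C (x i))).derivative.eval t = ∑ i, ∏ j ∈ univ.erase i, (t - x j) := by
  rw [Polynomial.derivative_prod_finset, Polynomial.eval_finsetSum]
  apply Finset.sum_congr rfl
  intro i _
  simp [Polynomial.eval_prod]

lemma abs_eval_deriv (x : Fin n → ℝ) (t : ℝ) :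
    |(∏ i, (X - C (x i))).derivative.eval t| ≤ E fun j => |t - x j| := by
  rw [eval_deriv]
  refine (Finset.abs_sum_le_sum_abs _ _).trans (Finset.sum_le_sum fun i _ => ?_)
  rw [Finset.abs_prod]

lemma card_erase (i : Fin n) : (univ.erase i).card = n - 1 := by
  rw [Finset.card_erase_of_mem (mem_univ i), Finset.card_univ, Fintype.card_fin]

lemma E_nonneg (a : Fin n → ℝ) (ha : ∀ i, 0 ≤ a i) : 0 ≤ E a :=
  Finset.sum_nonneg fun _ _ => Finset.prod_nonneg fun j _ => ha j

lemma E_le (a : Fin n → ℝ) (u : ℝ) (ha : ∀ i, 0 ≤ a i) (hau : ∀ i, a i ≤ u) :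
    E a ≤ n * u ^ (n - 1) := by
  unfold E
  calc ∑ i, ∏ j ∈ univ.erase i, a j ≤ ∑ _i : Fin n, u ^ (n - 1) := by
        apply Finset.sum_le_sum
        intro i _
        have := prod_le_pow' (univ.erase i) a u (fun j _ => ha j) (fun j _ => hau j)
        rwa [card_erase] at this
    _ = n * u ^ (n - 1) := by simp

lemma E_add_le (a b : Fin n → ℝ) (u v : ℝ) (hv : 0 ≤ v) (hvu : v ≤ u)
    (ha : ∀ i, 0 ≤ a i) (hb : ∀ i, 0 ≤ b i) (hau : ∀ i, a i ≤ u) (hbu : ∀ i, b i ≤ u)
    (hab : ∀ i, a i + b i ≤ u + v) :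
    E a + E b ≤ n * u ^ (n - 1) + n * v ^ (n - 1) := by
  unfold E
  rw [← Finset.sum_add_distrib]
  calc ∑ i, (∏ j ∈ univ.erase i, a j + ∏ j ∈ univ.erase i, b j)
      ≤ ∑ _i : Fin n, (u ^ (n - 1) + v ^ (n - 1)) := by
        apply Finset.sum_le_sum
        intro i _
        have := prod_pair (univ.erase i) a b u v hv hvu (fun j _ => ha j) (fun j _ => hb j)
          (fun j _ => hau j) (fun j _ => hbu j) (fun j _ => hab j)
        rwa [card_erase] at this
    _ = n * u ^ (n - 1) + n * v ^ (n - 1) := by simp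

lemma abs_facts {x t : ℝ} (hx : x ∈ Set.Icc (-1 : ℝ) 1) (ht : t ∈ Set.Icc (0 : ℝ) 1) :
    |t - x| ≤ 1 + t ∧ |-t - x| ≤ 1 + t ∧ |t - x| + |-t - x| ≤ (1 + t) + (1 - t) := by
  obtain ⟨h1, h2⟩ := hx
  obtain ⟨h3, h4⟩ := ht
  refine ⟨?_, ?_, ?_⟩
  · rw [abs_le]; constructor <;> linarith
  · rw [abs_le]; constructor <;> linarith
  · rcases abs_cases (t - x) with ⟨h5, h6⟩ | ⟨h5, h6⟩ <;>
      rcases abs_cases (-t - x) with ⟨h7, h8⟩ | ⟨h7, h8⟩ <;> rw [h5, h7] <;> linarith

lemma pointwise (x : Fin n → ℝ) (hx : ∀ i, x i ∈ Set.Icc (-1 : ℝ) 1) {t : ℝ}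
    (ht : t ∈ Set.Icc (0 : ℝ) 1) :
    phi ((∏ i, (X - C (x i))).derivative.eval t) + phi ((∏ i, (X - C (x i))).derivative.eval (-t)) ≤
      phi (n * (1 + t) ^ (n - 1)) + phi (n * (1 - t) ^ (n - 1)) := by
  have ht0 := ht.1
  have ht1 := ht.2
  have hA := abs_eval_deriv x t
  have hB := abs_eval_deriv x (-t)
  have hf := fun i => abs_facts (hx i) ht
  have h1 := E_le (fun j => |t - x j|) (1 + t) (fun _ => abs_nonneg _) (fun i => (hf i).1)
  have h2 := E_le (fun j => |-t - x j|) (1 + t) (fun _ => abs_nonneg _) (fun i => (hf i).2.1)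
  have h3 := E_add_le (fun j => |t - x j|) (fun j => |-t - x j|) (1 + t) (1 - t)
    (by linarith) (by linarith) (fun _ => abs_nonneg _) (fun _ => abs_nonneg _)
    (fun i => (hf i).1) (fun i => (hf i).2.1) (fun i => (hf i).2.2)
  rw [← phi_abs (eval t _), ← phi_abs (eval (-t) _)]
  apply phi_major (abs_nonneg _) (abs_nonneg _)
  · apply mul_le_mul_of_nonneg_left _ (Nat.cast_nonneg n)
    apply pow_le_pow_left₀ (by linarith) (by linarith)
  · exact hA.trans h1
  · exact hB.trans h2
  · exact (add_le_add hA hB).trans h3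

lemma eval_extremal (n : ℕ) (t : ℝ) :
    ((X - C 1) ^ n : ℝ[X]).derivative.eval t = n * (t - 1) ^ (n - 1) := by
  rw [Polynomial.derivative_X_sub_C_pow]; simp

lemma eval_extremal' (n : ℕ) (t : ℝ) :
    ((X + C 1) ^ n : ℝ[X]).derivative.eval t = n * (t + 1) ^ (n - 1) := by
  rw [Polynomial.derivative_X_add_C_pow]; simp

lemma phi_neg_pow (n m : ℕ) (s : ℝ) : phi (n * (-s) ^ m) = phi (n * s ^ m) := by
  rw [← phi_abs, ← phi_abs (n * s ^ m), abs_mul, abs_mul, abs_pow, abs_pow, abs_neg]

lemma cont_phi : Continuous phi := by unfold phi; fun_prop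

lemma arcLength_eq (P : ℝ[X]) :
    arcLength P = ∫ t in (0 : ℝ)..1, (phi (P.derivative.eval t) + phi (P.derivative.eval (-t))) := by
  have hc : Continuous fun t => phi (P.derivative.eval t) := cont_phi.comp P.derivative.continuous
  have hc' : Continuous fun t => phi (P.derivative.eval (-t)) := hc.comp continuous_neg
  have h1 : arcLength P = (∫ t in (-1 : ℝ)..0, phi (P.derivative.eval t)) +
      ∫ t in (0 : ℝ)..1, phi (P.derivative.eval t) := by
    unfold arcLength
    rw [intervalIntegral.integral_add_adjacent_intervals (hc.intervalIntegrable _ _)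
      (hc.intervalIntegrable _ _)]
    rfl
  have h2 : ∫ t in (-1 : ℝ)..0, phi (P.derivative.eval t) =
      ∫ t in (0 : ℝ)..1, phi (P.derivative.eval (-t)) := by
    have := intervalIntegral.integral_comp_neg (a := 0) (b := 1)
      (f := fun t => phi (P.derivative.eval t))
    rw [this, neg_zero]
  rw [h1, h2, intervalIntegral.integral_add (hc.intervalIntegrable _ _)
      (hc'.intervalIntegrable _ _)]
  ring

lemma arcLength_extremal (n : ℕ) :
    arcLength ((X - C 1) ^ n) =
      ∫ t in (0 : ℝ)..1, (phi (n * (1 + t) ^ (n - 1)) + phi (n * (1 - t) ^ (n - 1))) := by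
  rw [arcLength_eq]
  apply intervalIntegral.integral_congr
  intro t _
  simp only [eval_extremal]
  have e1 : t - 1 = -(1 - t) := by ring
  have e2 : -t - 1 = -(1 + t) := by ring
  rw [e1, e2, phi_neg_pow, phi_neg_pow]; ring

lemma arcLength_extremal' (n : ℕ) :
    arcLength ((X + C 1) ^ n) =
      ∫ t in (0 : ℝ)..1, (phi (n * (1 + t) ^ (n - 1)) + phi (n * (1 - t) ^ (n - 1))) := by
  rw [arcLength_eq]
  apply intervalIntegral.integral_congr
  intro t _
  simp only [eval_extremal']
  have e1 : t + 1 = 1 + t := by ring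
  have e2 : -t + 1 = (1 - t) := by ring
  rw [e1, e2]

lemma main_le (x : Fin n → ℝ) (hx : ∀ i, x i ∈ Set.Icc (-1 : ℝ) 1) :
    arcLength (∏ i, (X - C (x i))) ≤ arcLength ((X - C 1) ^ n) := by
  rw [arcLength_extremal, arcLength_eq]
  apply intervalIntegral.integral_mono_on zero_le_one
  · apply Continuous.intervalIntegrable
    exact (cont_phi.comp (Polynomial.continuous _)).add
      (cont_phi.comp ((Polynomial.continuous _).comp continuous_neg))
  · apply Continuous.intervalIntegrable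
    have := cont_phi
    fun_prop
  · intro t ht
    exact pointwise x hx ht

/-! ### Uniqueness for `n ≥ 3` -/

lemma term_le (hn : 3 ≤ n) (x : Fin n → ℝ) (hx : ∀ i, x i ∈ Set.Icc (-1 : ℝ) 1) (i : Fin n) :
    ∏ j ∈ univ.erase i, (1 - x j) + ∏ j ∈ univ.erase i, (1 + x j) ≤ 2 ^ (n - 1) := by
  have := prod_pair (univ.erase i) (fun j => 1 - x j) (fun j => 1 + x j) 2 0 le_rfl (by norm_num)
    (fun j _ => by have := (hx j).2; linarith)
    (fun j _ => by have := (hx j).1; linarith)
    (fun j _ => by have := (hx j).1; linarith)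
    (fun j _ => by have := (hx j).2; linarith)
    (fun j _ => by linarith)
  rw [card_erase, zero_pow (by omega : n - 1 ≠ 0), add_zero] at this
  exact this

lemma exists_strict (hn : 3 ≤ n) (x : Fin n → ℝ) (hx : ∀ i, x i ∈ Set.Icc (-1 : ℝ) 1)
    (h1 : ¬ ∀ i, x i = 1) (h2 : ¬ ∀ i, x i = -1) :
    ∃ i, ∏ j ∈ univ.erase i, (1 - x j) + ∏ j ∈ univ.erase i, (1 + x j) < 2 ^ (n - 1) := by
  classical
  by_cases hA : ∃ j0, x j0 ≠ 1 ∧ x j0 ≠ -1
  · obtain ⟨j0, ha, hb⟩ := hA
    have hlt1 : x j0 < 1 := lt_of_le_of_ne (hx j0).2 ha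
    have hlt2 : -1 < x j0 := lt_of_le_of_ne (hx j0).1 (Ne.symm hb)
    obtain ⟨i, hi⟩ : ∃ i : Fin n, i ≠ j0 := by
      haveI : Nontrivial (Fin n) := Fin.nontrivial_iff_two_le.mpr (by omega)
      exact exists_ne j0
    refine ⟨i, ?_⟩
    have hmem : j0 ∈ univ.erase i := by simp [Ne.symm hi]
    rw [← Finset.mul_prod_erase _ _ hmem, ← Finset.mul_prod_erase _ (fun j => 1 + x j) hmem]
    have hcard : ((univ.erase i).erase j0).card = n - 2 := by
      rw [Finset.card_erase_of_mem hmem, card_erase]; omega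
    have hp := prod_pair ((univ.erase i).erase j0) (fun j => 1 - x j) (fun j => 1 + x j) 2 0 le_rfl
      (by norm_num)
      (fun j _ => by have := (hx j).2; linarith)
      (fun j _ => by have := (hx j).1; linarith)
      (fun j _ => by have := (hx j).1; linarith)
      (fun j _ => by have := (hx j).2; linarith)
      (fun j _ => by linarith)
    rw [hcard, zero_pow (by omega : n - 2 ≠ 0), add_zero] at hp
    have hA0 : 0 ≤ ∏ j ∈ (univ.erase i).erase j0, (1 - x j) :=
      Finset.prod_nonneg fun j _ => by have := (hx j).2; linarith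
    have hB0 : 0 ≤ ∏ j ∈ (univ.erase i).erase j0, (1 + x j) :=
      Finset.prod_nonneg fun j _ => by have := (hx j).1; linarith
    set A := ∏ j ∈ (univ.erase i).erase j0, (1 - x j)
    set B := ∏ j ∈ (univ.erase i).erase j0, (1 + x j)
    set c := max (1 - x j0) (1 + x j0) with hc
    have hc2 : c < 2 := max_lt (by linarith) (by linarith)
    have hc0 : 0 ≤ c := le_trans (by linarith) (le_max_left (1 - x j0) (1 + x j0))
    have e : (2 : ℝ) ^ (n - 1) = 2 * 2 ^ (n - 2) := by
      rw [← pow_succ']; congr 1; omega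
    rw [e]
    have hpow : (0 : ℝ) < 2 ^ (n - 2) := by positivity
    calc (1 - x j0) * A + (1 + x j0) * B ≤ c * A + c * B :=
          add_le_add (mul_le_mul_of_nonneg_right (le_max_left _ _) hA0)
            (mul_le_mul_of_nonneg_right (le_max_right _ _) hB0)
      _ = c * (A + B) := by ring
      _ ≤ c * 2 ^ (n - 2) := mul_le_mul_of_nonneg_left hp hc0
      _ < 2 * 2 ^ (n - 2) := mul_lt_mul_of_pos_right hc2 hpow
  · push Not at hA
    push Not at h1 h2
    obtain ⟨j2, hj2⟩ := h1
    obtain ⟨j1, hj1⟩ := h2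
    have hx2 : x j2 = -1 := hA j2 hj2
    have hx1 : x j1 = 1 := by
      by_contra hcon
      exact hj1 (hA j1 hcon)
    obtain ⟨i, hi⟩ : ∃ i : Fin n, i ∉ ({j1, j2} : Finset (Fin n)) := by
      by_contra hcon
      push Not at hcon
      have hle : (univ : Finset (Fin n)).card ≤ ({j1, j2} : Finset (Fin n)).card :=
        Finset.card_le_card fun i _ => hcon i
      have := Finset.card_le_two (a := j1) (b := j2)
      rw [Finset.card_univ, Fintype.card_fin] at hle
      omega
    simp only [Finset.mem_insert, Finset.mem_singleton, not_or] at hi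
    refine ⟨i, ?_⟩
    have e1 : ∏ j ∈ univ.erase i, (1 - x j) = 0 :=
      Finset.prod_eq_zero (i := j1) (by simp [Ne.symm hi.1]) (by rw [hx1]; ring)
    have e2 : ∏ j ∈ univ.erase i, (1 + x j) = 0 :=
      Finset.prod_eq_zero (i := j2) (by simp [Ne.symm hi.2]) (by rw [hx2]; ring)
    rw [e1, e2, add_zero]
    positivity

lemma strict_at_one (hn : 3 ≤ n) (x : Fin n → ℝ) (hx : ∀ i, x i ∈ Set.Icc (-1 : ℝ) 1)
    (h1 : ¬ ∀ i, x i = 1) (h2 : ¬ ∀ i, x i = -1) :
    phi ((∏ i, (X - C (x i))).derivative.eval 1) + phi ((∏ i, (X - C (x i))).derivative.eval (-1)) <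
      phi (n * (1 + 1) ^ (n - 1)) + phi (n * (1 - 1) ^ (n - 1)) := by
  have hA := abs_eval_deriv x 1
  have hB := abs_eval_deriv x (-1)
  have ea : (fun j => |1 - x j|) = fun j => 1 - x j := by
    funext j; exact abs_of_nonneg (by have := (hx j).2; linarith)
  have eb : (fun j => |-1 - x j|) = fun j => 1 + x j := by
    funext j
    rw [abs_of_nonpos (by have := (hx j).1; linarith)]; ring
  rw [ea] at hA
  rw [eb] at hB
  have hsum : E (fun j => 1 - x j) + E (fun j => 1 + x j) < n * 2 ^ (n - 1) := by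
    unfold E
    rw [← Finset.sum_add_distrib]
    obtain ⟨i, hi⟩ := exists_strict hn x hx h1 h2
    calc ∑ i, (∏ j ∈ univ.erase i, (1 - x j) + ∏ j ∈ univ.erase i, (1 + x j))
        < ∑ _i : Fin n, (2 : ℝ) ^ (n - 1) :=
          Finset.sum_lt_sum (fun i _ => term_le hn x hx i) ⟨i, mem_univ i, hi⟩
      _ = n * 2 ^ (n - 1) := by simp
  set p := |(∏ i, (X - C (x i))).derivative.eval 1| with hp
  set q := |(∏ i, (X - C (x i))).derivative.eval (-1)| with hq
  have hp0 : 0 ≤ p := abs_nonneg _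
  have hq0 : 0 ≤ q := abs_nonneg _
  rw [← phi_abs (eval 1 _), ← phi_abs (eval (-1) _), ← hp, ← hq]
  have e0 : (1 - 1 : ℝ) ^ (n - 1) = 0 := by rw [sub_self, zero_pow (by omega)]
  have e1 : (1 + 1 : ℝ) = 2 := by norm_num
  rw [e0, e1, mul_zero]
  have hm := phi_major (p := p) (q := q) (m := 0) (M := p + q) hp0 hq0 (by linarith) (by linarith)
    (by linarith) (by linarith)
  have hs := phi_strict (x := p + q) (y := n * 2 ^ (n - 1)) (by linarith) (by linarith)
  linarith

lemma main_unique (hn : 3 ≤ n) (x : Fin n → ℝ) (hx : ∀ i, x i ∈ Set.Icc (-1 : ℝ) 1)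
    (heq : arcLength (∏ i, (X - C (x i))) = arcLength ((X - C 1) ^ n)) :
    (∀ i, x i = 1) ∨ (∀ i, x i = -1) := by
  by_contra hcon
  push Not at hcon
  obtain ⟨h1, h2⟩ := hcon
  have hlt : arcLength (∏ i, (X - C (x i))) < arcLength ((X - C 1) ^ n) := by
    rw [arcLength_extremal, arcLength_eq]
    apply intervalIntegral.integral_lt_integral_of_continuousOn_of_le_of_exists_lt zero_lt_one
    · apply Continuous.continuousOn
      exact (cont_phi.comp (Polynomial.continuous _)).add
        (cont_phi.comp ((Polynomial.continuous _).comp continuous_neg))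
    · apply Continuous.continuousOn
      have := cont_phi
      fun_prop
    · intro t ht
      exact pointwise x hx ⟨ht.1.le, ht.2⟩
    · exact ⟨1, by simp, strict_at_one hn x hx (by push Not; exact h1) (by push Not; exact h2)⟩
  exact absurd heq hlt.ne

/-- **Maximal arc-length.** For every `n` and all zeros `x_1, ..., x_n ∈ [-1,1]`, the arc-length
on `[-1,1]` of the monic polynomial `∏ (X - x_i)` is at most that of `(X - 1)^n`, which equals
that of `(X + 1)^n`; and for `n ≥ 3` these two polynomials are the only maximisers. -/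
theorem result (n : ℕ) (x : Fin n → ℝ) (hx : ∀ i, x i ∈ Set.Icc (-1 : ℝ) 1) :
    arcLength (∏ i, (X - C (x i))) ≤ arcLength ((X - C 1) ^ n) ∧
    arcLength ((X + C 1) ^ n) = arcLength ((X - C 1) ^ n) ∧
    (3 ≤ n → arcLength (∏ i, (X - C (x i))) = arcLength ((X - C 1) ^ n) →
      (∀ i, x i = 1) ∨ (∀ i, x i = -1)) :=
  ⟨main_le x hx, by rw [arcLength_extremal, arcLength_extremal'], fun hn h => main_unique hn x hx h⟩

end Pool.Agent.Results.MP_c605fa_an.MaxArcLength
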